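import Mathlib

set_option autoImplicit false

/-! Graphs without cycles of length 2 mod 4 from the twisted affine group of type A_2^(2). -/

namespace Pool.Agent.Helper69.GC

open Polynomial

/-- 3 x 3 matrices over `F[t]`. -/
abbrev Mat (F : Type) [Field F] := Matrix (Fin 3) (Fin 3) F[X]

/-- The anti-automorphism `M(t) ↦ J M(-t)ᵀ J`, `J = antidiag(1,-1,1)`. -/
noncomputable def tw {F : Type} [Field F] (M : Mat F) : Mat F :=
  Matrix.of fun i j => (-1 : F[X]) ^ ((i : ℕ) + (j : ℕ)) * (M j.rev i.rev).comp (-X)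

/-- `exp (a (E₁₂ + E₂₃))`. -/
noncomputable def matA {F : Type} [Field F] (a : F) : Mat F :=
  !![1, C a, C (a ^ 2 / 2); 0, 1, C a; 0, 0, 1]

/-- `1 + b t E₃₁`. -/
noncomputable def matB {F : Type} [Field F] (b : F) : Mat F :=
  !![1, 0, 0; 0, 1, 0; C b * X, 0, 1]

/-- `t^s E_ij` has degree `3 s + j - i`; `Fil d M`: all terms of `M` have degree `≥ d`. -/
def Fil {F : Type} [Field F] (d : ℕ) (M : Mat F) : Prop :=
  ∀ i j : Fin 3, ∀ s : ℕ, 3 * s + (j : ℕ) < d + (i : ℕ) → (M i j).coeff s = 0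

/-- All terms of `M` have degree `> k`, except perhaps corner terms of degree exactly `k`. -/
def Lat {F : Type} [Field F] (k : ℕ) (M : Mat F) : Prop :=
  ∀ i j : Fin 3, ∀ s : ℕ, 3 * s + (j : ℕ) < k + 1 + (i : ℕ) →
    ¬ (3 * s + (j : ℕ) = k + (i : ℕ) ∧ ((i = 2 ∧ j = 0) ∨ (i = 0 ∧ j = 2))) →
    (M i j).coeff s = 0

/-- The group conditions. -/
def Mem {F : Type} [Field F] (M : Mat F) : Prop :=
  M.det = 1 ∧ Fil 1 (M - 1) ∧ M * tw M = 1 ∧ tw M * M = 1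

/-- The word `∏_{i<n} A(a_i) B(b_i)`. -/
noncomputable def wd {F : Type} [Field F] (a b : ℕ → F) : ℕ → Mat F
  | 0 => 1
  | n + 1 => wd a b n * (matA (a n) * matB (b n))

/-- Positions `(i, j, s)` of the coefficients which determine an element modulo `Lat k`. -/
def crd (k : ℕ) : Finset (Fin 3 × Fin 3 × ℕ) :=
  ((Finset.range (k + 1)).filter fun s => 1 ≤ s ∧ 3 * s ≤ k).image (fun s => (0, 0, s)) ∪
  ((Finset.range (k + 1)).filter fun s => 3 * s + 1 ≤ k).image (fun s => (0, 1, s)) ∪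
  ((Finset.range (k + 1)).filter fun s => 3 * s + 2 ≤ k).image (fun s => (1, 0, s + 1)) ∪
  ((Finset.range (k + 1)).filter fun s => s % 2 = 0 ∧ 3 * s + 1 < k).image
    (fun s => (2, 0, s + 1)) ∪
  ((Finset.range (k + 1)).filter fun s => s % 2 = 1 ∧ 3 * s + 2 < k).image (fun s => (0, 2, s))

/-- The word `∏_{i<n} α(a_i) β(b_i)` in a group. -/
def gwd {F Q : Type} [Group Q] (α β : F → Q) (a b : ℕ → F) : ℕ → Q
  | 0 => 1
  | n + 1 => gwd α β a b n * (α (a n) * β (b n))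

/-- The allowed half-lengths. -/
def Good (k j : ℕ) : Prop := 2 ∣ j ∧ 2 * (k + 1) ≤ 3 * j

/-- Closed non-backtracking sequences of length `≤ 2k` have length `2j`, `j` good. -/
def NB {V : Type} (G : SimpleGraph V) (k : ℕ) : Prop :=
  ∀ (L : ℕ) (v : ℕ → V), 1 ≤ L → L ≤ 2 * k → (∀ i, G.Adj (v i) (v (i + 1))) →
    (∀ i, v i ≠ v (i + 2)) → (∀ i, v (i + L) = v i) → ∃ j, L = 2 * j ∧ Good k j

/-! ### Statements of the modules -/

/-- ALG: the twist is an anti-automorphism, and the generators are in the group. -/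
def ST_ALG : Prop :=
  ∀ (F : Type) [Field F], (2 : F) ≠ 0 →
    (∀ M N : Mat F, tw (M * N) = tw N * tw M) ∧ (∀ M N : Mat F, tw (M - N) = tw M - tw N) ∧
    (∀ M : Mat F, tw (tw M) = M) ∧ (tw (1 : Mat F) = 1) ∧
    (∀ (M : Mat F) (i j : Fin 3) (s : ℕ),
      (tw M i j).coeff s = (-1) ^ (s + (i : ℕ) + (j : ℕ)) * (M j.rev i.rev).coeff s) ∧
    (∀ a b : F, matA (a + b) = matA a * matA b) ∧ (∀ a b : F, matB (a + b) = matB a * matB b) ∧
    (∀ a : F, Mem (matA a)) ∧ (∀ b : F, Mem (matB b))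

/-- FIL: the filtration is multiplicative, `Lat k` is a two-sided ideal for `Fil 0`. -/
def ST_FIL : Prop :=
  ∀ (F : Type) [Field F] (k : ℕ),
    (∀ (d e : ℕ) (M N : Mat F), Fil d M → Fil e N → Fil (d + e) (M * N)) ∧
    (∀ (M N : Mat F), Fil 0 M → Lat k N → Lat k (M * N)) ∧
    (∀ (M N : Mat F), Lat k M → Fil 0 N → Lat k (M * N)) ∧
    Fil 0 (1 : Mat F) ∧
    (∀ (d : ℕ) (M : Mat F), Fil d M → Fil d (tw M))

/-- GAM: the group conditions define a group. -/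
def ST_GAM : Prop :=
  ∀ (F : Type) [Field F], (2 : F) ≠ 0 →
    Mem (1 : Mat F) ∧ (∀ M N : Mat F, Mem M → Mem N → Mem (M * N)) ∧
    (∀ M : Mat F, Mem M → Mem (tw M)) ∧ (∀ (a b : ℕ → F) (n : ℕ), Mem (wd a b n))

/-- WORD: degree and leading coefficient of the trace of a word. -/
def ST_WORD : Prop :=
  ∀ (F : Type) [Field F] (a b : ℕ → F) (j : ℕ), 1 ≤ j →
    (∀ (i l : Fin 3) (s : ℕ), j < s → (wd a b j i l).coeff s = 0) ∧
    (Matrix.trace (wd a b j)).coeff j = ∏ i ∈ Finset.range j, (b i * (a i ^ 2 / 2))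

/-- DET: order of vanishing of the coefficients of the characteristic polynomial of `M - 1`. -/
def ST_DET : Prop :=
  ∀ (F : Type) [Field F] (k : ℕ) (M : Mat F), Mem M → Lat k (M - 1) →
    (∀ s, s ≤ k → (Matrix.trace M - (Matrix.trace M).comp (-X)).coeff s = 0) ∧
    (∀ s, s ≤ 2 * (k / 3) →
      ((3 : F[X]) - 2 * Matrix.trace M + (Matrix.trace M).comp (-X)).coeff s = 0)

/-- REL: relations between the two one-parameter subgroups modulo `Lat k`. -/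
def ST_REL : Prop :=
  ∀ (F : Type) [Field F], (2 : F) ≠ 0 → ∀ (k j : ℕ) (a b : ℕ → F), 1 ≤ j → j ≤ k →
    (∀ i, i < j → a i ≠ 0) → (∀ i, i < j → b i ≠ 0) → Lat k (wd a b j - 1) → Good k j

/-- CNT: the coordinates `crd k` determine an element of the group modulo `Lat k`. -/
def ST_CNT : Prop :=
  ∀ (F : Type) [Field F], (2 : F) ≠ 0 → ∀ (k : ℕ) (M N : Mat F), 1 ≤ k → Mem M → Mem N →
    (∀ c ∈ crd k, (M c.1 c.2.1).coeff c.2.2 = (N c.1 c.2.1).coeff c.2.2) →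
    Lat k (tw N * M - 1)

/-- CARD: the number of coordinates. -/
def ST_CARD : Prop :=
  ∀ k : ℕ, k % 2 = 1 → 3 ≤ k → (crd k).card ≤ 4 * k / 3

/-- GRP: the finite quotient group. -/
def ST_GRP : Prop :=
  ∀ (F : Type) [Field F] [Finite F], (2 : F) ≠ 0 → ∀ k : ℕ, k % 2 = 1 → 3 ≤ k →
    ∃ (Q : Type) (_ : Group Q) (_ : Finite Q) (α β : F → Q),
      (∀ x y, α (x + y) = α x * α y) ∧ (∀ x y, β (x + y) = β x * β y) ∧
      (∀ x y, α x = β y → x = 0 ∧ y = 0) ∧ Nat.card Q ≤ Nat.card F ^ (4 * k / 3) ∧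
      (∀ (a b : ℕ → F) (j : ℕ), 1 ≤ j → j ≤ k → (∀ i, i < j → a i ≠ 0) →
        (∀ i, i < j → b i ≠ 0) → gwd α β a b j = 1 → Good k j)

/-- GRA: the coset graph of two abelian subgroups. -/
def ST_GRA : Prop :=
  ∀ (F : Type) [Field F] [Finite F] (k : ℕ) (Q : Type) [Group Q] [Finite Q] (α β : F → Q),
    (∀ x y, α (x + y) = α x * α y) → (∀ x y, β (x + y) = β x * β y) →
    (∀ x y, α x = β y → x = 0 ∧ y = 0) →
    (∀ (a b : ℕ → F) (j : ℕ), 1 ≤ j → j ≤ k → (∀ i, i < j → a i ≠ 0) →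
        (∀ i, i < j → b i ≠ 0) → gwd α β a b j = 1 → Good k j) →
    ∃ (V : Type) (_ : Finite V) (G : SimpleGraph V),
      Nat.card V * Nat.card F = 2 * Nat.card Q ∧
      (∀ v : V, (G.neighborSet v).ncard = Nat.card F) ∧ NB G k

/-- CYC: from closed non-backtracking sequences to cycles. -/
def ST_CYC : Prop :=
  ∀ (V : Type) (G : SimpleGraph V) (k : ℕ), NB G k →
    ∀ (u : V) (w : G.Walk u u), w.IsCycle → w.length ≤ 2 * k → ∃ j, w.length = 2 * j ∧ Good k j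

/-- COPY: disjoint copies and isolated vertices. -/
def ST_COPY : Prop :=
  ∀ (V : Type) [Finite V] [Nonempty V] (G : SimpleGraph V) (k q n : ℕ),
    (∀ v : V, (G.neighborSet v).ncard = q) → NB G k → Nat.card V ≤ n →
    ∃ H : SimpleGraph (Fin n), NB H k ∧ n * q ≤ 4 * H.edgeSet.ncard

/-- FIN: the theorem. -/
def ST_FIN : Prop :=
  ∀ k : ℕ, k % 2 = 1 → 3 ≤ k →
    ∃ c : ℝ, 0 < c ∧ ∃ N : ℕ, ∀ n : ℕ, N ≤ n →
      ∃ G : SimpleGraph (Fin n),
        (∀ (u : Fin n) (w : G.Walk u u), w.IsCycle → w.length ≤ 2 * k →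
          4 ∣ w.length ∧ 4 * (k + 1) ≤ 3 * w.length) ∧
        c * (n : ℝ) ^ ((1 : ℝ) + 1 / ((4 * k / 3 - 1 : ℕ) : ℝ)) ≤ (G.edgeSet.ncard : ℝ)

end Pool.Agent.Helper69.GC
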