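import Pool.Agent.Helper69.GC.Defs

set_option autoImplicit false

namespace Pool.Agent.Helper69.GC

theorem st_FIN (h1 : ST_GRP) (h2 : ST_GRA) (h3 : ST_CYC) (h4 : ST_COPY) : ST_FIN := by
  intro k hk hk3
  obtain ⟨v, hv⟩ : ∃ v : ℕ, 4 * k / 3 = v + 1 := ⟨4 * k / 3 - 1, by omega⟩
  have hv3 : 3 ≤ v := by omega
  have hvr : (0 : ℝ) < (v : ℝ) := by exact_mod_cast (by omega : 0 < v)
  refine ⟨1 / 24, by norm_num, 2 * 6 ^ v, fun n hn => ?_⟩
  have hn0 : (0 : ℝ) < (n : ℝ) := by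
    have : 0 < n := lt_of_lt_of_le (by positivity) hn
    exact_mod_cast this
  set x : ℝ := ((n : ℝ) / 2) ^ ((1 : ℝ) / (v : ℝ)) with hx
  have hxv : x ^ v = (n : ℝ) / 2 := by
    rw [hx, ← Real.rpow_natCast, ← Real.rpow_mul (by positivity), one_div,
      inv_mul_cancel₀ hvr.ne', Real.rpow_one]
  have hx0 : 0 < x := by rw [hx]; positivity
  have hx6 : (6 : ℝ) ≤ x := by
    by_contra hlt
    push Not at hlt
    have : x ^ v < 6 ^ v := pow_lt_pow_left₀ hlt hx0.le (by omega)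
    rw [hxv] at this
    have h5 : (2 * 6 ^ v : ℝ) ≤ (n : ℝ) := by exact_mod_cast hn
    linarith
  obtain ⟨m, hm⟩ : ∃ m : ℕ, m = ⌊x⌋₊ := ⟨_, rfl⟩
  have hm1 : (m : ℝ) ≤ x := by rw [hm]; exact Nat.floor_le hx0.le
  have hm2 : x < (m : ℝ) + 1 := by rw [hm]; exact Nat.lt_floor_add_one x
  have hm6 : 6 ≤ m := by rw [hm]; exact Nat.le_floor (by exact_mod_cast hx6)
  obtain ⟨p, hp, hp1, hp2⟩ := Nat.exists_prime_lt_and_le_two_mul (m / 2) (by omega)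
  haveI : Fact p.Prime := ⟨hp⟩
  have hpm : p ≤ m := by omega
  have hpx : x / 3 ≤ (p : ℝ) := by
    have h5 : m + 1 ≤ 2 * p := by omega
    have h6 : (m : ℝ) + 1 ≤ 2 * (p : ℝ) := by exact_mod_cast h5
    linarith
  have h2F : (2 : ZMod p) ≠ 0 := by
    intro h
    have h5 : ((2 : ℕ) : ZMod p) = 0 := by exact_mod_cast h
    rw [ZMod.natCast_eq_zero_iff] at h5
    have := Nat.le_of_dvd (by norm_num) h5
    omega
  obtain ⟨Q, iG, iF, α, β, hα, hβ, hαβ, hcard, hrel⟩ := h1 (ZMod p) h2F k hk hk3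
  obtain ⟨V, iV, G, hV, hdeg, hNB⟩ := h2 (ZMod p) k Q α β hα hβ hαβ hrel
  have hFc : Nat.card (ZMod p) = p := Nat.card_zmod p
  rw [hFc] at hcard hV hdeg
  have hQ : 0 < Nat.card Q := Nat.card_pos
  have hVpos : 0 < Nat.card V := by
    rcases Nat.eq_zero_or_pos (Nat.card V) with h | h
    · rw [h] at hV
      omega
    · exact h
  haveI : Nonempty V := (Nat.card_pos_iff.mp hVpos).1
  have hVn : Nat.card V ≤ n := by
    have h5 : Nat.card V * p ≤ (2 * p ^ v) * p := by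
      rw [hV]
      calc 2 * Nat.card Q ≤ 2 * p ^ (4 * k / 3) := Nat.mul_le_mul_left _ hcard
        _ = (2 * p ^ v) * p := by rw [hv, pow_succ]; ring
    have h6 : Nat.card V ≤ 2 * p ^ v := Nat.le_of_mul_le_mul_right h5 hp.pos
    have h7 : (2 * p ^ v : ℝ) ≤ (n : ℝ) := by
      have h8 : (p : ℝ) ≤ x := le_trans (by exact_mod_cast hpm) hm1
      have h9 : (p : ℝ) ^ v ≤ x ^ v := pow_le_pow_left₀ (by positivity) h8 v
      rw [hxv] at h9
      linarith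
    have h8 : 2 * p ^ v ≤ n := by exact_mod_cast h7
    omega
  obtain ⟨H, hHNB, hHe⟩ := h4 V G k p n hdeg hNB hVn
  refine ⟨H, ?_, ?_⟩
  · intro u w hw hwl
    obtain ⟨j, hj, hg⟩ := h3 (Fin n) H k hHNB u w hw hwl
    obtain ⟨hg1, hg2⟩ := hg
    omega
  · have h5 : (n : ℝ) * (p : ℝ) ≤ 4 * (H.edgeSet.ncard : ℝ) := by exact_mod_cast hHe
    have e1 : 4 * k / 3 - 1 = v := by omega
    rw [e1, Real.rpow_add hn0, Real.rpow_one]
    have h6 : (n : ℝ) ^ ((1 : ℝ) / (v : ℝ)) ≤ 2 * x := by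
      have h7 : (n : ℝ) = ((n : ℝ) / 2) * 2 := by ring
      have h8 : (2 : ℝ) ^ ((1 : ℝ) / (v : ℝ)) ≤ 2 := by
        calc (2 : ℝ) ^ ((1 : ℝ) / (v : ℝ)) ≤ (2 : ℝ) ^ (1 : ℝ) := by
              apply Real.rpow_le_rpow_of_exponent_le (by norm_num)
              rw [div_le_one hvr]
              exact_mod_cast (by omega : 1 ≤ v)
          _ = 2 := Real.rpow_one 2
      calc (n : ℝ) ^ ((1 : ℝ) / (v : ℝ)) = (((n : ℝ) / 2) * 2) ^ ((1 : ℝ) / (v : ℝ)) := by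
            rw [← h7]
        _ = x * (2 : ℝ) ^ ((1 : ℝ) / (v : ℝ)) := by
            rw [Real.mul_rpow (by positivity) (by norm_num)]
        _ ≤ x * 2 := mul_le_mul_of_nonneg_left h8 hx0.le
        _ = 2 * x := by ring
    have h7 : (n : ℝ) * (n : ℝ) ^ ((1 : ℝ) / (v : ℝ)) ≤ (n : ℝ) * (2 * x) :=
      mul_le_mul_of_nonneg_left h6 hn0.le
    have h8 : (n : ℝ) * (x / 3) ≤ (n : ℝ) * (p : ℝ) := mul_le_mul_of_nonneg_left hpx hn0.le
    nlinarith

end Pool.Agent.Helper69.GC
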