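import Pool.Agent.Helper69.GC.Defs

set_option autoImplicit false

namespace Pool.Agent.Helper69.GC

open Polynomial

/-- The group of all matrices with `Mem`. -/
abbrev grpG (F : Type) [Field F] := {M : Mat F // Mem M}

noncomputable def grpInst (F : Type) [Field F] (hone : Mem (1 : Mat F))
    (hmul : ∀ M N : Mat F, Mem M → Mem N → Mem (M * N))
    (hinv : ∀ M : Mat F, Mem M → Mem (tw M)) : Group (grpG F) :=
  { mul := fun M N => ⟨M.1 * N.1, hmul _ _ M.2 N.2⟩
    one := ⟨1, hone⟩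
    inv := fun M => ⟨tw M.1, hinv _ M.2⟩
    mul_assoc := fun a b c => Subtype.ext (mul_assoc a.1 b.1 c.1)
    one_mul := fun a => Subtype.ext (one_mul a.1)
    mul_one := fun a => Subtype.ext (mul_one a.1)
    inv_mul_cancel := fun M => Subtype.ext M.2.2.2.2 }

theorem grp_lat_add {F : Type} [Field F] {k : ℕ} {M N : Mat F} (h : Lat k M) (h' : Lat k N) :
    Lat k (M + N) := by
  intro i j s h1 h2
  rw [Matrix.add_apply, coeff_add, h i j s h1 h2, h' i j s h1 h2, add_zero]

theorem grp_lat_neg {F : Type} [Field F] {k : ℕ} {M : Mat F} (h : Lat k M) :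
    Lat k (-M) := by
  intro i j s h1 h2
  rw [Matrix.neg_apply, coeff_neg, h i j s h1 h2, neg_zero]

theorem grp_fil0 {F : Type} [Field F] (hf1 : Fil 0 (1 : Mat F)) {M : Mat F} (h : Mem M) :
    Fil 0 M := by
  intro i j s hs
  have h1 := h.2.1 i j s (by omega)
  have h2 := hf1 i j s (by omega)
  rw [Matrix.sub_apply, coeff_sub, h2, sub_zero] at h1
  exact h1

theorem grp_wd_eq {F : Type} [Field F] {Q : Type} [Group Q] (π : grpG F → Q)
    (hm : ∀ M N : grpG F, ∀ h : Mem (M.1 * N.1), π ⟨M.1 * N.1, h⟩ = π M * π N)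
    (h1 : ∀ h : Mem (1 : Mat F), π ⟨1, h⟩ = 1)
    (hA : ∀ a : F, Mem (matA a)) (hB : ∀ b : F, Mem (matB b))
    (hmul : ∀ M N : Mat F, Mem M → Mem N → Mem (M * N))
    (hwd : ∀ (a b : ℕ → F) (n : ℕ), Mem (wd a b n)) (a b : ℕ → F) (n : ℕ) :
    gwd (fun x => π ⟨matA x, hA x⟩) (fun x => π ⟨matB x, hB x⟩) a b n = π ⟨wd a b n, hwd a b n⟩ := by
  induction n with
  | zero =>
    simp only [gwd, wd]
    exact (h1 _).symm
  | succ n ih =>
    have e1 := hm ⟨matA (a n), hA _⟩ ⟨matB (b n), hB _⟩ (hmul _ _ (hA _) (hB _))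
    have e2 := hm ⟨wd a b n, hwd a b n⟩ ⟨matA (a n) * matB (b n), hmul _ _ (hA _) (hB _)⟩
      (hmul _ _ (hwd a b n) (hmul _ _ (hA _) (hB _)))
    simp only [gwd]
    rw [ih, ← e1, ← e2]
    rfl

theorem st_GRP (h1 : ST_ALG) (h2 : ST_FIL) (h3 : ST_GAM) (h4 : ST_REL) (h5 : ST_CNT)
    (h6 : ST_CARD) : ST_GRP := by
  intro F _ _ h2F k hk hk3
  obtain ⟨-, -, -, -, -, hAadd, hBadd, hA, hB⟩ := h1 F h2F
  obtain ⟨-, hl, hr, hf1, -⟩ := h2 F k
  obtain ⟨hone, hmul, hinv, hwd⟩ := h3 F h2F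
  letI iG : Group (grpG F) := grpInst F hone hmul hinv
  have hf0 : ∀ M : grpG F, Fil 0 M.1 := fun M => grp_fil0 hf1 M.2
  -- the normal subgroup
  let H : Subgroup (grpG F) :=
    { carrier := {M | Lat k (M.1 - 1)}
      mul_mem' := by
        intro M N hM hN
        have e : (M.1 * N.1 - 1 : Mat F) = (M.1 - 1) * N.1 + (N.1 - 1) := by
          rw [sub_mul, one_mul, sub_add_sub_cancel]
        change Lat k (M.1 * N.1 - 1)
        rw [e]
        exact grp_lat_add (hr _ _ hM (hf0 N)) hN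
      one_mem' := by
        change Lat k ((1 : Mat F) - 1)
        rw [sub_self]
        intro i j s _ _
        simp
      inv_mem' := by
        intro M hM
        change Lat k (tw M.1 - 1)
        have e : (tw M.1 - 1 : Mat F) = -(tw M.1 * (M.1 - 1)) := by
          rw [mul_sub, M.2.2.2.2, mul_one, neg_sub]
        rw [e]
        exact grp_lat_neg (hl _ _ (grp_fil0 hf1 (hinv _ M.2)) hM) }
  have hHn : H.Normal := by
    refine ⟨fun M hM N => ?_⟩
    change Lat k (N.1 * M.1 * tw N.1 - 1)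
    have e : (N.1 * M.1 * tw N.1 - 1 : Mat F) = N.1 * (M.1 - 1) * tw N.1 := by
      rw [mul_sub, sub_mul, mul_one, N.2.2.2.1]
    rw [e]
    exact hr _ _ (hl _ _ (hf0 N) hM) (grp_fil0 hf1 (hinv _ N.2))
  -- the injection
  let f : (grpG F ⧸ H) → (crd k → F) := fun q c =>
    ((Quotient.out q).1 c.1.1 c.1.2.1).coeff c.1.2.2
  have hf : Function.Injective f := by
    intro q q' hq
    have h7 := h5 F h2F k (Quotient.out q).1 (Quotient.out q').1 (by omega) (Quotient.out q).2
      (Quotient.out q').2 (fun c hc => congrFun hq ⟨c, hc⟩)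
    have h8 : (Quotient.out q')⁻¹ * Quotient.out q ∈ H := h7
    have h9 := QuotientGroup.eq.mpr h8
    rw [QuotientGroup.out_eq', QuotientGroup.out_eq'] at h9
    exact h9.symm
  haveI : Finite (grpG F ⧸ H) := Finite.of_injective f hf
  have hcard : Nat.card (grpG F ⧸ H) ≤ Nat.card F ^ (4 * k / 3) := by
    calc Nat.card (grpG F ⧸ H) ≤ Nat.card (crd k → F) := Nat.card_le_card_of_injective f hf
      _ = Nat.card F ^ (crd k).card := by
        rw [Nat.card_fun]
        simp
      _ ≤ Nat.card F ^ (4 * k / 3) := Nat.pow_le_pow_right Nat.card_pos (h6 k hk hk3)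
  let π : grpG F → grpG F ⧸ H := fun M => (M : grpG F ⧸ H)
  refine ⟨grpG F ⧸ H, inferInstance, inferInstance, fun x => π ⟨matA x, hA x⟩,
    fun x => π ⟨matB x, hB x⟩, ?_, ?_, ?_, hcard, ?_⟩
  · intro x y
    change π _ = π _ * π _
    have : (⟨matA (x + y), hA _⟩ : grpG F) = ⟨matA x, hA x⟩ * ⟨matA y, hA y⟩ :=
      Subtype.ext (hAadd x y)
    rw [this]
    rfl
  · intro x y
    change π _ = π _ * π _
    have : (⟨matB (x + y), hB _⟩ : grpG F) = ⟨matB x, hB x⟩ * ⟨matB y, hB y⟩ :=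
      Subtype.ext (hBadd x y)
    rw [this]
    rfl
  · intro x y hxy
    have h8 : (⟨matA x, hA x⟩ : grpG F)⁻¹ * ⟨matB y, hB y⟩ ∈ H := QuotientGroup.eq.mp hxy
    have h9 : Lat k (tw (matA x) * matB y - 1) := h8
    have h10 := hl _ _ (hf0 ⟨matA x, hA x⟩) h9
    have e : matA x * (tw (matA x) * matB y - 1) = matB y - matA x := by
      rw [mul_sub, ← mul_assoc, (hA x).2.2.1, one_mul, mul_one]
    rw [e] at h10
    constructor
    · have := h10 0 1 0 (by simp; omega) (by simp)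
      simpa [matA, matB] using this
    · have := h10 2 0 1 (by simp; omega) (by
        intro h
        have := h.1
        simp at this
        omega)
      simpa [matA, matB] using this
  · intro a b j hj hjk ha hb hw
    rw [grp_wd_eq π (fun _ _ _ => rfl) (fun _ => rfl) hA hB hmul hwd a b j] at hw
    have h11 : (⟨wd a b j, hwd a b j⟩ : grpG F) ∈ H := (QuotientGroup.eq_one_iff _).mp hw
    exact h4 F h2F k j a b hj hjk ha hb h11

end Pool.Agent.Helper69.GC
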